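import Pool.Agent.H18.Hur1

set_option autoImplicit false

namespace Pool.Agent.Results.MP_cf3fbb_gt.CH

open Pool.Agent.H18.Tau Set

/-- the Hurewicz property `U_fin(O, Γ)` -/
def Hurewicz (Z : Type) [TopologicalSpace Z] : Prop :=
  ∀ 𝒰 : ℕ → Set (Set Z), (∀ n, (∀ u ∈ 𝒰 n, IsOpen u) ∧ ⋃₀ 𝒰 n = univ ∧
      ¬ ∃ 𝒱 ⊆ 𝒰 n, 𝒱.Finite ∧ ⋃₀ 𝒱 = univ) →
    ∃ ℱ : ℕ → Set (Set Z), (∀ n, (ℱ n).Finite ∧ ℱ n ⊆ 𝒰 n) ∧
      univ ∉ range (fun n => ⋃₀ ℱ n) ∧ (range fun n => ⋃₀ ℱ n).Infinite ∧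
      ∀ x : Z, {v ∈ range fun n => ⋃₀ ℱ n | x ∉ v}.Finite

/-- Under CH there is a Hurewicz set inside an `F_σδ` set with no `σ`-compact set in between. -/
theorem result : Cardinal.continuum.{0} = Cardinal.aleph 1 →
    ∃ X B : Set ℝ, X ⊆ B ∧ MeasurableSet B ∧
      (∃ C : ℕ → ℕ → Set ℝ, (∀ m k, IsClosed (C m k)) ∧ B = ⋂ m, ⋃ k, C m k) ∧
      Hurewicz X ∧ ¬ ∃ F : Set ℝ, IsSigmaCompact F ∧ X ⊆ F ∧ F ⊆ B := by
  intro hCH
  obtain ⟨L, l1, l2, l3⟩ := scale hCH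
  obtain ⟨e, -, e1, e2⟩ := (isClosed_univ (X := ℝ)).exists_nat_bool_injection_of_not_countable
    Cardinal.not_countable_real
  have he := e1.isClosedEmbedding e2
  let C : ℕ → ℕ → Set ℝ := fun m k =>
    e '' ({x | ∀ n, k ≤ n → x n = false} ∪ {x | x (2 * (m + k)) = true})
  have c1 : ∀ m k, IsClosed (C m k) := by
    intro m k
    refine he.isClosedMap _ (IsClosed.union ?_ (isClosed_eq (continuous_apply _) continuous_const))
    simp only [setOf_forall]
    exact isClosed_iInter fun n => isClosed_iInter fun _ =>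
      isClosed_eq (continuous_apply _) continuous_const
  have c2 : e '' B0 = ⋂ m, ⋃ k, C m k := by
    ext p
    simp only [mem_iInter, mem_iUnion]
    constructor
    · rintro ⟨x, t | t, rfl⟩ m
      · obtain ⟨k, hk⟩ := t.bddAbove
        refine ⟨k + 1, x, Or.inl fun n hn => ?_, rfl⟩
        by_contra s
        have := hk (show x n = true by simpa using s)
        omega
      · obtain ⟨k, k1, k2⟩ := t.exists_gt m
        refine ⟨k - m, x, Or.inr ?_, rfl⟩
        rw [mem_setOf_eq, show m + (k - m) = k by omega]; exact k1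
    · intro h
      obtain ⟨k, x, -, rfl⟩ := h 0
      refine ⟨x, ?_, rfl⟩
      by_cases t : {n | x n = true}.Finite
      · exact Or.inl t
      · refine Or.inr (infinite_of_forall_exists_gt fun m => ?_)
        obtain ⟨k, y, hy, s⟩ := h (m + 1)
        rw [e2 s] at hy
        rcases hy with u | u
        · refine absurd ((finite_lt_nat k).subset fun n hn => ?_) t
          by_contra v
          have := u n (not_lt.mp v)
          rw [hn] at this
          exact absurd this (by simp)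
        · exact ⟨_, u, by omega⟩
  have i1 : range ind ⊆ B0 := by
    rintro _ ⟨s, rfl⟩
    exact Or.inl (s.finite_toSet.subset fun n hn => by simpa [ind] using hn)
  refine ⟨e '' (range ind ∪ L), e '' B0, image_mono (union_subset i1 l1), ?_, ⟨C, c1, c2⟩,
    fun 𝒰 h => ?_, ?_⟩
  · rw [c2]
    exact MeasurableSet.iInter fun m => MeasurableSet.iUnion fun k => (c1 m k).measurableSet
  · obtain ⟨F, f1, f2⟩ := hurewicz l2 e1 𝒰 (fun n => (h n).1)
      (fun n x => mem_sUnion.mp ((h n).2.1 ▸ mem_univ x))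
    have ne : ∀ n, ⋃₀ F n ≠ univ := fun n t => (h n).2.2 ⟨F n, (f1 n).2, (f1 n).1, t⟩
    have fin : ∀ x, {n | x ∉ ⋃₀ F n}.Finite := fun x => by
      have := f2 x
      rwa [← Nat.cofinite_eq_atTop, Filter.eventually_cofinite] at this
    refine ⟨F, f1, fun ⟨n, t⟩ => ne n t, fun t => ?_, fun x => ((fin x).image
      fun n => ⋃₀ F n).subset ?_⟩
    · refine infinite_univ (α := ℕ) ((t.biUnion (t := fun v => {n | ⋃₀ F n = v}) ?_).subset
        fun n _ => mem_biUnion (mem_range_self n) rfl)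
      rintro _ ⟨n, rfl⟩
      obtain ⟨x, hx⟩ := (ne_univ_iff_exists_notMem _).mp (ne n)
      exact (fin x).subset fun m (hm : ⋃₀ F m = ⋃₀ F n) => show x ∉ ⋃₀ F m from hm ▸ hx
    · rintro _ ⟨⟨n, rfl⟩, t⟩
      exact ⟨n, t, rfl⟩
  · rintro ⟨F, ⟨K, k1, rfl⟩, f2, f3⟩
    obtain ⟨x, x1, x2⟩ := l3 (fun n => e ⁻¹' K n) (fun n => (k1 n).isClosed.preimage e1)
      (fun n y hy => by
        obtain ⟨z, z1, z2⟩ := f3 (mem_iUnion.mpr ⟨n, hy⟩)
        exact e2 z2 ▸ z1)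
    obtain ⟨n, hn⟩ := mem_iUnion.mp (f2 ⟨x, Or.inr x1, rfl⟩)
    exact x2 n hn

end Pool.Agent.Results.MP_cf3fbb_gt.CH
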